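import Pool.Agent.helper62.LL.SpecG

/-! MP_07c750, project LL, row VBL: the area of small discs of the hyperbolic plane. -/

open scoped MatrixGroups ContDiff Topology UpperHalfPlane
open UpperHalfPlane MeasureTheory Filter Set

namespace Pool.Agent.LL

theorem vbl_im (z : ℍ) (ρ : ℝ) (w : ℂ)
    (hw : w ∈ Metric.ball (↑(z.center ρ) : ℂ) (z.im * Real.sinh ρ)) :
    z.im * Real.exp (-ρ) ≤ w.im ∧ w.im ≤ z.im * Real.exp ρ := by
  have h1 : |w.im - z.im * Real.cosh ρ| < z.im * Real.sinh ρ := by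
    have h2 : |(w - (↑(z.center ρ) : ℂ)).im| ≤ ‖w - (↑(z.center ρ) : ℂ)‖ :=
      Complex.abs_im_le_norm _
    rw [Metric.mem_ball, Complex.dist_eq] at hw
    have h3 : (w - (↑(z.center ρ) : ℂ)).im = w.im - z.im * Real.cosh ρ := by
      simp
    rw [h3] at h2
    exact lt_of_le_of_lt h2 hw
  have h4 := abs_lt.1 h1
  have h5 : Real.exp ρ = Real.cosh ρ + Real.sinh ρ := (Real.cosh_add_sinh ρ).symm
  have h6 : Real.exp (-ρ) = Real.cosh ρ - Real.sinh ρ := (Real.cosh_sub_sinh ρ).symm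
  rw [h5, h6]
  constructor <;> nlinarith [h4.1, h4.2]

theorem vbl_sinh (ρ : ℝ) (h0 : 0 < ρ) (h1 : ρ ≤ 1) :
    ρ ≤ Real.sinh ρ ∧ Real.sinh ρ ≤ 2 * ρ := by
  refine ⟨Real.self_le_sinh_iff.2 h0.le, ?_⟩
  have h2 : |Real.exp ρ - 1 - ρ| ≤ ρ ^ 2 := Real.abs_exp_sub_one_sub_id_le (by rw [abs_of_pos h0]; exact h1)
  have h3 : -ρ + 1 ≤ Real.exp (-ρ) := Real.add_one_le_exp (-ρ)
  rw [Real.sinh_eq]
  have h4 := (abs_le.1 h2).2
  nlinarith

theorem VBL_proof : VBL_stmt := by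
  refine ⟨Real.exp (-2) * Real.pi, Real.exp 2 * (4 * Real.pi), by positivity, by positivity,
    fun z ρ h0 h1 => ?_⟩
  obtain ⟨hs1, hs2⟩ := vbl_sinh ρ h0 h1
  have hz : 0 < z.im := z.im_pos
  have hs0 : 0 < Real.sinh ρ := lt_of_lt_of_le h0 hs1
  have hvol : volume (Metric.ball z ρ) =
      ∫⁻ w : ℂ in Metric.ball (↑(z.center ρ) : ℂ) (z.im * Real.sinh ρ),
        ↑((1 / ‖w.im‖₊) ^ 2 : NNReal) := by
    rw [volume_eq_lintegral, image_coe_ball]
  have hB : volume (Metric.ball (↑(z.center ρ) : ℂ) (z.im * Real.sinh ρ)) =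
      ENNReal.ofReal ((z.im * Real.sinh ρ) ^ 2 * Real.pi) := by
    rw [Complex.volume_ball, ← ENNReal.ofReal_pow (by positivity), ← ENNReal.ofReal_coe_nnreal,
      ← ENNReal.ofReal_mul (by positivity)]
    rfl
  have hf : ∀ w : ℂ, w.im ≠ 0 → ((((1 / ‖w.im‖₊) ^ 2 : NNReal)) : ENNReal) =
      ENNReal.ofReal ((1 / |w.im|) ^ 2) := by
    intro w hw
    rw [← ENNReal.ofReal_coe_nnreal]
    congr 1
  have hlo : ∀ w ∈ Metric.ball (↑(z.center ρ) : ℂ) (z.im * Real.sinh ρ),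
      ENNReal.ofReal (Real.exp (-2) / z.im ^ 2) ≤ ((((1 / ‖w.im‖₊) ^ 2 : NNReal)) : ENNReal) := by
    intro w hw
    obtain ⟨ha, hb⟩ := vbl_im z ρ w hw
    have hw0 : 0 < w.im := lt_of_lt_of_le (by positivity) ha
    rw [hf w hw0.ne', abs_of_pos hw0]
    apply ENNReal.ofReal_le_ofReal
    have h3 : w.im ≤ z.im * Real.exp 1 := hb.trans (by gcongr)
    have h4 : w.im ^ 2 ≤ z.im ^ 2 * Real.exp 2 := by
      have : (z.im * Real.exp 1) ^ 2 = z.im ^ 2 * Real.exp 2 := by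
        rw [mul_pow, ← Real.exp_nat_mul]
        norm_num
      rw [← this]
      gcongr
    rw [one_div_pow, Real.exp_neg, div_le_div_iff₀ (by positivity) (by positivity), one_mul]
    rw [inv_mul_le_iff₀ (Real.exp_pos 2)]
    linarith
  have hhi : ∀ w ∈ Metric.ball (↑(z.center ρ) : ℂ) (z.im * Real.sinh ρ),
      ((((1 / ‖w.im‖₊) ^ 2 : NNReal)) : ENNReal) ≤ ENNReal.ofReal (Real.exp 2 / z.im ^ 2) := by
    intro w hw
    obtain ⟨ha, hb⟩ := vbl_im z ρ w hw
    have hw0 : 0 < w.im := lt_of_lt_of_le (by positivity) ha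
    rw [hf w hw0.ne', abs_of_pos hw0]
    apply ENNReal.ofReal_le_ofReal
    have h3 : z.im * Real.exp (-1) ≤ w.im := le_trans (by gcongr) ha
    have h4 : z.im ^ 2 * Real.exp (-2) ≤ w.im ^ 2 := by
      have : (z.im * Real.exp (-1)) ^ 2 = z.im ^ 2 * Real.exp (-2) := by
        rw [mul_pow, ← Real.exp_nat_mul]
        norm_num
      rw [← this]
      gcongr
    rw [one_div_pow, div_le_div_iff₀ (by positivity) (by positivity), one_mul]
    have h5 : z.im ^ 2 = Real.exp 2 * (z.im ^ 2 * Real.exp (-2)) := by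
      rw [mul_comm (z.im ^ 2), ← mul_assoc, ← Real.exp_add]
      norm_num
    rw [h5]
    gcongr
  rw [hvol]
  constructor
  · calc ENNReal.ofReal (Real.exp (-2) * Real.pi * ρ ^ 2)
        ≤ ENNReal.ofReal (Real.exp (-2) / z.im ^ 2 * ((z.im * Real.sinh ρ) ^ 2 * Real.pi)) := by
          apply ENNReal.ofReal_le_ofReal
          have : Real.exp (-2) / z.im ^ 2 * ((z.im * Real.sinh ρ) ^ 2 * Real.pi) =
              Real.exp (-2) * Real.pi * Real.sinh ρ ^ 2 := by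
            field_simp
          rw [this]
          gcongr
      _ = ∫⁻ _w : ℂ in Metric.ball (↑(z.center ρ) : ℂ) (z.im * Real.sinh ρ),
            ENNReal.ofReal (Real.exp (-2) / z.im ^ 2) := by
          rw [setLIntegral_const, hB, ← ENNReal.ofReal_mul (by positivity)]
      _ ≤ _ := setLIntegral_mono' Metric.isOpen_ball.measurableSet hlo
  · calc ∫⁻ w : ℂ in Metric.ball (↑(z.center ρ) : ℂ) (z.im * Real.sinh ρ),
            ↑((1 / ‖w.im‖₊) ^ 2 : NNReal)
        ≤ ∫⁻ _w : ℂ in Metric.ball (↑(z.center ρ) : ℂ) (z.im * Real.sinh ρ),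
            ENNReal.ofReal (Real.exp 2 / z.im ^ 2) :=
          setLIntegral_mono' Metric.isOpen_ball.measurableSet hhi
      _ = ENNReal.ofReal (Real.exp 2 / z.im ^ 2 * ((z.im * Real.sinh ρ) ^ 2 * Real.pi)) := by
          rw [setLIntegral_const, hB, ← ENNReal.ofReal_mul (by positivity)]
      _ ≤ ENNReal.ofReal (Real.exp 2 * (4 * Real.pi) * ρ ^ 2) := by
          apply ENNReal.ofReal_le_ofReal
          have : Real.exp 2 / z.im ^ 2 * ((z.im * Real.sinh ρ) ^ 2 * Real.pi) =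
              Real.exp 2 * Real.pi * Real.sinh ρ ^ 2 := by
            field_simp
          rw [this]
          have h6 : Real.sinh ρ ^ 2 ≤ (2 * ρ) ^ 2 := by gcongr
          have h7 : 0 < Real.exp 2 * Real.pi := by positivity
          nlinarith

end Pool.Agent.LL
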